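import Mathlib

namespace Pool.Agent.Results.MP_7dcdb2_al.Counter
open Quaternion Matrix MulOpposite

/-- right quaternion subspaces of column vectors -/
abbrev Sub (n : ℕ) := Submodule ℍ[ℝ]ᵐᵒᵖ (Fin n → ℍ[ℝ])

/-- square quaternion matrices -/
abbrev Mat (n : ℕ) := Matrix (Fin n) (Fin n) ℍ[ℝ]

variable {n : ℕ}

/-- the real number `[x,x] = x* H x` -/
noncomputable def q (H : Mat n) (x : Fin n → ℍ[ℝ]) : ℝ := (star x ⬝ᵥ (H *ᵥ x)).re

/-- `H` has inertia `(a, b, c)` -/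
def Inertia (H : Mat n) (a b c : ℕ) : Prop :=
  a + b + c = n ∧ ∃ S : Mat n, IsUnit S ∧
    Sᴴ * H * S = diagonal fun i : Fin n => if i.val < a then 1 else if i.val < a + b then -1 else 0

/-- `H`-nonnegative subspaces -/
def Nonneg (H : Mat n) (M : Sub n) : Prop := ∀ x ∈ M, 0 ≤ q H x

/-- `H`-plus-matrices -/
def Plus (H A : Mat n) : Prop := ∀ x, 0 ≤ q H x → 0 ≤ q H (A *ᵥ x)

/-- `A`-invariance -/
def Inv (A : Mat n) (M : Sub n) : Prop := ∀ x ∈ M, A *ᵥ x ∈ M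

noncomputable def H0 : Mat 3 := diagonal ![1, -1, 0]
noncomputable def A0 : Mat 3 := !![0, 0, 1; 0, 0, 1; 0, 0, 0]

lemma q_eq (x : Fin 3 → ℍ[ℝ]) : q H0 x = normSq (x 0) - normSq (x 1) := by
  simp [q, H0, dotProduct, Fin.sum_univ_three, mulVec_diagonal, normSq_def']
  ring

lemma A_eq (x : Fin 3 → ℍ[ℝ]) : A0 *ᵥ x = ![x 2, x 2, 0] := by
  funext i
  fin_cases i <;> simp [A0, mulVec, dotProduct, Fin.sum_univ_three]

theorem result : ∃ (n : ℕ) (H A : Mat n) (a b c : ℕ) (M₀ : Sub n),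
    Hᴴ = H ∧ ¬ IsUnit H ∧ Inertia H a b c ∧ Plus H A ∧ Inv A M₀ ∧ Nonneg H M₀ ∧
    ¬ ∃ M : Sub n, M₀ ≤ M ∧ Inv A M ∧ Nonneg H M ∧ Module.finrank ℍ[ℝ]ᵐᵒᵖ M = a + c := by
  let e : Fin 3 → ℍ[ℝ] := ![1, 0, 0]
  refine ⟨3, H0, A0, 1, 1, 1, Submodule.span _ {e}, ?_, ?_, ⟨rfl, 1, isUnit_one, ?_⟩, ?_, ?_, ?_,
    ?_⟩
  · refine Matrix.ext fun i j => ?_
    fin_cases i <;> fin_cases j <;> simp [H0]
  · rintro ⟨u, hu⟩
    have h := congrFun (congrFun u.mul_inv 2) 2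
    rw [hu] at h
    simp [H0, diagonal_mul] at h
  · refine Matrix.ext fun i j => ?_
    fin_cases i <;> fin_cases j <;> simp [H0]
  · intro x _
    simp [A_eq, q_eq]
  · intro x hx
    obtain ⟨c, rfl⟩ := Submodule.mem_span_singleton.1 hx
    have : A0 *ᵥ (c • e) = 0 := by
      rw [A_eq]
      funext i
      fin_cases i <;> simp [e]
    rw [this]
    exact Submodule.zero_mem _
  · intro x hx
    obtain ⟨c, rfl⟩ := Submodule.mem_span_singleton.1 hx
    simp [q_eq, e, normSq_nonneg]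
  · rintro ⟨M, h0, hA, hM, hd⟩
    have he : e ∈ M := h0 (Submodule.mem_span_singleton_self e)
    have h1 : ∀ x ∈ M, x 1 = 0 := by
      intro x hx
      have := hM _ (M.sub_mem hx (M.smul_mem (op (x 0)) he))
      rw [q_eq, Pi.sub_apply, Pi.sub_apply] at this
      simpa [e] using this
    have h2 : M ≤ Submodule.span _ {e} := by
      intro x hx
      have h3 := h1 _ (hA x hx)
      rw [A_eq] at h3
      refine Submodule.mem_span_singleton.2 ⟨op (x 0), ?_⟩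
      funext i
      fin_cases i
      · simp [e]
      · simp [e, h1 x hx]
      · simpa [e] using h3.symm
    have h4 := Submodule.finrank_mono h2
    have h5 := finrank_span_le_card (R := ℍ[ℝ]ᵐᵒᵖ) ({e} : Set (Fin 3 → ℍ[ℝ]))
    simp at h5
    omega

end Pool.Agent.Results.MP_7dcdb2_al.Counter
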